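import Pool.Agent.Q67.TN.Defs

/-!
# The zero-one law: definitions
-/

open CategoryTheory AlgebraicGeometry

universe u

namespace Pool.Agent.Q67.TZ

open Pool.Agent.H914 Pool.Agent.H914.VarClass Pool.Agent.H914.VarClass.Obj
open Pool.Agent.Y133.Half (pw)
open Pool.Agent.Q67.TN

variable {k : Type u} [Field k] {𝒱 : VarClass k} {ops : CycleOps 𝒱} {S : Theory ops}

/-- The classes which are both Hodge classes and Tate classes. -/
def both (D : Action S) : Classes S := fun X => hodge S X ∩ tate D X

/-- The zero-one law for the index `N` of the classes in `R` over the classes in `C` on the powers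
of `X`. -/
structure ZeroOne (R C : Classes S) (X : 𝒱.Obj) (N : ℕ∞) : Prop where
  index : IndexIs R C X N
  zeroOne : N = 1 ∨ N = ⊤
  one : N = 1 ↔ ∀ n, In R C (pw X n)
  infinitesimal : N = 1 ↔ ∀ m, Crit R C X (fun _ => True) m

/-- The fourth power of `X` decides whether all classes in `R` on all powers of `X` are linear
combinations of classes in `C`. -/
structure Fourth (R C : Classes S) (X : 𝒱.Obj) : Prop where
  criterion : (∀ n, In R C (pw X n)) ↔
    Crit R C X (fun _ => True) 3 ∧ ∀ m, Crit R C X (Central R X) m
  enough : In R C (pw X 3) → NoCentralSkew C X → ∀ n, In R C (pw X n)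

end Pool.Agent.Q67.TZ
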