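import Pool.Agent.Q67.TN.Final
import Pool.Agent.Q67.TL.ZO2
import Pool.Agent.Q67.TZ.Defs

/-!
# The zero-one law: final form
-/

set_option autoImplicit false
set_option linter.unusedSectionVars false

open CategoryTheory AlgebraicGeometry TensorProduct Filter Topology

universe u v w

namespace Pool.Agent.Q67.TZ

open Pool.Agent.H914 Pool.Agent.H914.VarClass Pool.Agent.H914.VarClass.Obj
  Pool.Agent.H914.WeilCohomology
open Pool.Agent.Y133.Half hiding prj extOp_xp tateDim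
open Pool.Agent.Q67.Det Pool.Agent.Q67.TK
open Pool.Agent.Q67.TG
open Pool.Agent.W458.MF Pool.Agent.W536.RR Pool.Agent.H281R3.HT
open Pool.Agent.Y121 Pool.Agent.Y121.AHS
open Pool.Agent.Q67.TM (LinOp killedBy IsInf Intertwines SpannedBy spanDim Complemented CentralIn
  NoSkew GivenBy Leibniz Kill)
open Pool.Agent.Q67.TG.F (hodgeSet IsOddProj IsPolarisation)
open Pool.Agent.Q67.TN

variable {k : Type u} [Field k] {𝒱 : VarClass k} {ops : CycleOps 𝒱} {S : Theory ops}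
  {X Y Z : 𝒱.Obj} {C R : Classes S} {R' : ClassPred (VV S)} {Q : ClassPred (toH S.T).W}

section lie

variable {D : Action S} (hD : Infinitesimal (algebraic S) D)

/-- The infinitesimal action. -/
noncomputable def lieA : LieAct (VV S) where
  ι := D.ι
  op a X := oo (D.op X a)
  gr a X i x hx := (hD.1 X a).1 i x hx
  mul a X x y := (hD.1 X a).2.1 x y
  map a X Y f y := by
    have h1 : oo (D.op X a) (cc (pull f (dc y))) = cc (pull f (D.op Y a (dc y))) :=
      hD.2 X Y f a (dc y)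
    have h2 := map_cc f (dc y)
    have h3 := map_cc f (D.op Y a (dc y))
    refine (congrArg (oo (D.op X a)) h2).trans ?_
    exact h1.trans h3.symm
  tr a X x := (hD.1 X a).2.2.1 x
  cl a X j z hz := (hD.1 X a).2.2.2 _ ⟨_, ⟨j, z, hz, rfl⟩, rfl⟩

lemma repA_tate : Rep (tate D) (lieA hD).pred := by
  refine ⟨?_, ?_⟩
  · rintro Z c ⟨⟨j, hj⟩, hc⟩
    exact ⟨j, hj, fun a => hc a⟩
  · rintro Z j c ⟨hj, hc⟩
    exact Submodule.subset_span ⟨⟨j, hj⟩, fun a => hc a⟩

lemma semiA_of (hs : Semisimple D Z) : (lieA hD).Semi Z := by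
  intro U hU
  obtain ⟨U', hc, hs'⟩ := hs (U : Submodule S.L (Coh S Z)) fun a x hx => hU a x hx
  exact ⟨U', hc, fun a x hx => hs' a x hx⟩

lemma rep_both : Rep (both D) (bcPred S.L (bothP (lieA hD))) := by
  refine rep_lift (R₀ := fun Z => {c | c ∈ hodgeSet S.T Z ∧ em S c ∈ tate D Z}) ?_ ?_ ?_
  · intro Z
    ext x
    constructor
    · rintro ⟨⟨c, hc, rfl⟩, hx⟩
      exact ⟨c, ⟨hc, hx⟩, rfl⟩
    · rintro ⟨c, ⟨hc, hx⟩, rfl⟩
      exact ⟨⟨c, hc, rfl⟩, hx⟩
  · rintro Z c ⟨⟨j, hj⟩, hc⟩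
    exact ⟨j, hj, fun a => hc.2 a⟩
  · rintro Z j c ⟨hj, hc⟩
    refine Submodule.subset_span ⟨⟨j, hj⟩, ⟨j, ?_⟩, fun a => hc a⟩
    exact AH.em_gr (W := (toH S.T).W) (L := S.L) hj.1

end lie

section law

lemma ratOpA_mem (hC : Rep C (bcPred S.L Q)) {φ : TG.F.Opr S.T X} (h : IsRatOp C X φ) :
    (show Module.End (toH S.T).W.K ((toH S.T).W.H X) from φ) ∈ Q.sys.Op X X := by
  refine op_descent (L := S.L) (Sys.mem_Op.2 ?_)
  obtain ⟨z, hz, h1⟩ := h
  refine ⟨cc z, hC.span_iff.1 hz, ?_⟩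
  refine em_ext (W := (toH S.T).W) fun x => ?_
  rw [bcE_em]
  have h2 := h1 x
  rw [TN.image_eq] at h2
  exact h2.symm

lemma killsA_iff (hR : Rep R R') {A : Opr S X} :
    (∀ m, Kills R A m) ↔ KillsW R'.sys X (oo A) :=
  forall_congr' fun _ => hR.kills_iff

lemma index_of (hR : Rep R R') (hC : Rep C (bcPred S.L Q)) {N : ℕ∞}
    (h : HasIndex (fun n => dimBy (VV S) R'.P (pw X n))
      (fun n => dimBy (toH S.T).W Q.P (pw X n)) N) : IndexIs R C X N := by
  have hdR : dimOn R X = fun n => dimBy (VV S) R'.P (pw X n) := funext fun n => hR.dim_eq X n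
  have hdC : dimOn C X = fun n => dimBy (toH S.T).W Q.P (pw X n) :=
    funext fun n => (hC.dim_eq X n).trans (bcPred_dim _)
  unfold IndexIs
  rw [hdR, hdC]
  exact h

lemma crit_of (hR : Rep R R') (hC : Rep C (bcPred S.L Q)) :
    (∀ m, Crit R C X (fun _ => True) m) ↔
      ∀ A : Module.End (VV S).K ((VV S).H X), KillsW (bcPred S.L Q).sys X A →
        KillsW R'.sys X A := by
  constructor
  · intro h A hA
    exact (killsA_iff hR).1 fun m => h m (uu A) trivial ((killsA_iff hC).2 hA)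
  · intro h m A _ hA
    exact (killsA_iff hR).2 (h (oo A) ((killsA_iff hC).1 hA)) m

lemma zeroOne_of (hR : Rep R R') (hC : Rep C (bcPred S.L Q)) {N : ℕ∞}
    (h : HasIndex (fun n => dimBy (VV S) R'.P (pw X n))
      (fun n => dimBy (toH S.T).W Q.P (pw X n)) N)
    (h1 : N = 1 ↔ ∀ n j c, R'.P (pw X n) j c → (bcPred S.L Q).P (pw X n) j c)
    (h2 : N ≠ ⊤ → N = 1)
    (h3 : N ≠ ⊤ ↔ ∀ A : Module.End (VV S).K ((VV S).H X), KillsW (bcPred S.L Q).sys X A →
      KillsW R'.sys X A) : ZeroOne R C X N := by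
  have h4 : N = 1 ↔ N ≠ ⊤ := ⟨fun h => by rw [h]; exact ENat.one_ne_top, h2⟩
  refine ⟨index_of hR hC h, ?_, h1.trans (forall_congr' fun n => (hR.in_iff hC).symm),
    h4.trans (h3.trans (crit_of hR hC).symm)⟩
  by_cases h5 : N = ⊤
  · exact Or.inr h5
  · exact Or.inl (h2 h5)

lemma fourth_of (hR : Rep R R') (hC : Rep C (bcPred S.L Q)) {N : ℕ∞}
    (P : PolData (toH S.T) Q.sys X)
    (hle : ∀ {Z : 𝒱.Obj} {j : ℕ} {c : (VV S).H Z}, (bcPred S.L Q).P Z j c → R'.P Z j c)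
    (h : LawOf R' Q X N) (h0 : N ≠ ⊤ → N = 1) : Fourth R C X := by
  obtain ⟨h1, h2, h3, h4, h5, h6, h7⟩ := id h
  have h8 : N = 1 ↔ N ≠ ⊤ := ⟨fun h => by rw [h]; exact ENat.one_ne_top, h0⟩
  have h9 : (∀ n, In R C (pw X n)) ↔ N = 1 :=
    (h3.trans (forall_congr' fun n => (hR.in_iff hC).symm)).symm
  refine ⟨h9.trans (h8.trans (h7.trans ?_)), fun hI hs => h9.2 (h0 ?_)⟩
  · constructor
    · rintro ⟨h4, hZ⟩
      refine ⟨fun A _ hA => hR.kills_iff.2 (h4 (oo A) ((killsA_iff hC).1 hA)),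
        fun m A hc hA => ?_⟩
      have h8 := hR.central_iff.1 hc
      exact (killsA_iff hR).2 (hZ (oo A) ((killsA_iff hC).1 hA) h8.1 h8.2) m
    · rintro ⟨h4, hZ⟩
      refine ⟨fun A hA => hR.kills_iff.1 (h4 (uu A) trivial ((killsA_iff hC).2 hA)),
        fun A hA h8 h9 => ?_⟩
      exact (killsA_iff hR).1 fun m => hZ m (uu A) (hR.central_iff.2 ⟨h8, h9⟩)
        ((killsA_iff hC).2 hA)
  · refine four_suffices P hle h ((hR.in_iff hC).1 hI) ?_
    intro A hA1 hA2 hA3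
    exact hs (uu A) (hC.central_iff.2 ⟨hA1, hA2⟩) fun x y => hA3 (cc x) (cc y)

end law

/-- **The zero-one law.** -/
theorem zero_one_law (S : Theory ops) (D : Action S) (hD : Infinitesimal (algebraic S) D)
    (X : 𝒱.Obj) [Nontrivial (RH S X)] (u : TG.F.Opr S.T X)
    (hu : IsRatOp (both D) X u) (hpol : IsPolarisation S.T X u) :
    ∃ NH NT : ℕ∞, ZeroOne (hodge S) (both D) X NH ∧ ZeroOne (tate D) (both D) X NT ∧
      Fourth (hodge S) (both D) X ∧
      (Semisimple D (X.prod X) → Fourth (tate D) (both D) X ∧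
        (In (hodge S) (tate D) (pw X 3) → In (tate D) (hodge S) (pw X 3) →
          NoCentralSkew (both D) X → NH = 1 ∧ NT = 1)) ∧
      (NH = 1 ↔ ∀ n, In (hodge S) (tate D) (pw X n)) ∧
      (NT = 1 → ∀ n, In (tate D) (hodge S) (pw X n)) := by
  have hnt : Nontrivial ((toH S.T).W.H X) := ‹Nontrivial (RH S X)›
  have hB := rep_both hD
  have hT := repA_tate hD
  have hH := rep_hodge (S := S)
  let P : PolData (toH S.T) (bothP (lieA hD)).sys X :=
    { le := fun _ => ClassPred.sys_le (fun h => both_hodge h) _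
      uu := u
      mem := ratOpA_mem hB hu
      odd := odd_both X
      pol := pol_of hpol }
  have hleT : ∀ {Z : 𝒱.Obj} {j : ℕ} {c : (VV S).H Z},
      (bcPred S.L (bothP (lieA hD))).P Z j c → (lieA hD).pred.P Z j c := fun hc =>
    bcPred_le (R := (lieA hD).pred)
      (fun h => ⟨AH.em_gr ((bothP (lieA hD)).gr h), fun a => both_kill h a⟩) hc
  have hleH : ∀ {Z : 𝒱.Obj} {j : ℕ} {c : (VV S).H Z},
      (bcPred S.L (bothP (lieA hD))).P Z j c → (bcPred S.L (AH.hodgePred (toH S.T))).P Z j c :=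
    fun hc => bc_mono (fun h => both_hodge h) hc
  obtain ⟨NH, h1, h2⟩ := zo_hodge (L := S.L) P
  obtain ⟨NT, k1, k2, k3, k4⟩ := zo_killed' (L := S.L) P
  have hZH : ZeroOne (hodge S) (both D) X NH :=
    zeroOne_of hH hB h1.2.1 h1.2.2.1 h2 h1.2.2.2.2.2.1
  have hZT : ZeroOne (tate D) (both D) X NT := zeroOne_of hT hB k1 k2 k3 k4
  have hbt : ∀ Z, both D Z ⊆ tate D Z := fun Z x hx => hx.2
  have hbh : ∀ Z, both D Z ⊆ hodge S Z := fun Z x hx => hx.1
  have hFH : Fourth (hodge S) (both D) X := fourth_of hH hB P hleH h1 h2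
  -- Hodge classes which are combinations of Tate classes are Tate classes
  have hHT : ∀ Z, In (hodge S) (tate D) Z → In (hodge S) (both D) Z := by
    intro Z h
    refine (hH.in_iff hB).2 ?_
    have h3 := (hH.in_iff hT).1 h
    intro j c hc
    refine bc_le_of (Q := AH.hodgePred (toH S.T)) (R := bothP (lieA hD)) ?_ hc
    intro j c hc
    exact ⟨hc, (h3 j _ (bcPred_of hc)).2⟩
  have hIn : ∀ {R C E : Classes S} {Z : 𝒱.Obj}, In R C Z → In C E Z → In R E Z := by
    intro R C E Z h1 h2 x hx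
    exact (Submodule.span_le.2 fun y hy => h2 y hy : Submodule.span S.L (C Z) ≤ _) (h1 x hx)
  refine ⟨NH, NT, hZH, hZT, hFH, fun hss => ?_, ?_, ?_⟩
  · obtain ⟨NT', l1, l2⟩ := zo_killed (L := S.L) P (semiA_of hD hss)
    have hFT : Fourth (tate D) (both D) X := fourth_of hT hB P hleT l1 l2
    refine ⟨hFT, fun a1 a2 a3 => ?_⟩
    have b1 := hHT _ a1
    refine ⟨hZH.one.2 (hFH.enough b1 a3), hZT.one.2 (hFT.enough (hIn a2 b1) a3)⟩
  · rw [hZH.one]
    constructor
    · intro h n x hx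
      exact Submodule.span_mono (hbt _) (h n x hx)
    · intro h n
      exact hHT _ (h n)
  · intro h n x hx
    exact Submodule.span_mono (hbh _) (hZT.one.1 h n x hx)

end Pool.Agent.Q67.TZ
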